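import Pool.Agent.Helper52.EK.Defs
set_option autoImplicit false
open Complex MeasureTheory Metric Set
open scoped Real ComplexConjugate

/-!
# Project EK, module E4a: the null Lagrangian `U` on a rectangle of the strip

With a cut-off `χ` in the first variable and a weight `a` in the second one, both vanishing to the
second order at the ends of their intervals, `∫∫ χ (a Δu - a'' u) = ∫∫ χ'' a u` for `u = U ∘ X`.
The proof applies the divergence theorem for rectangles to the field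
`(a (χ u_ξ - χ' u), χ (a u_η - a' u))`.
-/

namespace Pool.Agent.Helper78.EK

open Pool.Agent.Helper52.EK

/-- the derivative of `p ↦ X (pt p.1 p.2)` at a point where the complex derivative of `X` is `d` -/
noncomputable def Lc (d : ℂ) : ℝ × ℝ →L[ℝ] ℂ :=
  d • (ofRealCLM.comp (ContinuousLinearMap.fst ℝ ℝ ℝ) +
    I • ofRealCLM.comp (ContinuousLinearMap.snd ℝ ℝ ℝ))

theorem Lc_10 (d : ℂ) : Lc d (1, 0) = d := by simp [Lc]

theorem Lc_01 (d : ℂ) : Lc d (0, 1) = d * I := by simp [Lc]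

theorem hasFDerivAt_pt (p : ℝ × ℝ) :
    HasFDerivAt (fun q : ℝ × ℝ => pt q.1 q.2) (Lc 1) p := by
  have h1 : HasFDerivAt (fun q : ℝ × ℝ => (q.1 : ℂ))
      (ofRealCLM.comp (ContinuousLinearMap.fst ℝ ℝ ℝ)) p :=
    (ofRealCLM.comp (ContinuousLinearMap.fst ℝ ℝ ℝ)).hasFDerivAt
  have h2 : HasFDerivAt (fun q : ℝ × ℝ => (q.2 : ℂ))
      (ofRealCLM.comp (ContinuousLinearMap.snd ℝ ℝ ℝ)) p :=
    (ofRealCLM.comp (ContinuousLinearMap.snd ℝ ℝ ℝ)).hasFDerivAt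
  have h3 := h1.add (h2.mul_const I)
  refine h3.congr_fderiv ?_
  ext <;> simp [Lc]

theorem hasFDerivAt_X {X : ℂ → ℂ} {p : ℝ × ℝ} (hX : DifferentiableAt ℂ X (pt p.1 p.2)) :
    HasFDerivAt (fun q : ℝ × ℝ => X (pt q.1 q.2)) (Lc (deriv X (pt p.1 p.2))) p := by
  have h1 : HasFDerivAt X ((ContinuousLinearMap.toSpanSingleton ℂ
      (deriv X (pt p.1 p.2))).restrictScalars ℝ) (pt p.1 p.2) :=
    (hX.hasDerivAt.hasFDerivAt).restrictScalars ℝ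
  have h2 := HasFDerivAt.comp (g := X) p h1 (hasFDerivAt_pt p)
  refine h2.congr_fderiv ?_
  ext <;> simp [Lc, mul_comm]

theorem continuous_pt : Continuous (fun p : ℝ × ℝ => pt p.1 p.2) := by
  unfold pt
  fun_prop

theorem continuousOn_pt {X : ℂ → ℂ} {x₁ x₂ : ℝ} (hX : ContinuousOn X (Rect x₁ x₂)) :
    ContinuousOn (fun p : ℝ × ℝ => X (pt p.1 p.2)) (Icc x₁ x₂ ×ˢ Icc 0 π) := by
  refine hX.comp continuous_pt.continuousOn ?_
  rintro ⟨x, y⟩ ⟨hx, hy⟩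
  simp only [Rect, mem_reProdIm, pt]
  constructor
  · simpa using hx
  · simpa using hy

theorem C1f.cont {W Wx Wy : ℂ → ℝ} (h : C1f W Wx Wy) : Continuous W :=
  continuous_iff_continuousAt.2 fun X => (h.hd X).continuousAt

/-- linearity of the iterated integral on functions continuous on the closed rectangle -/
theorem II_sub {x₁ x₂ : ℝ} (hx : x₁ ≤ x₂) {F G : ℝ → ℝ → ℝ}
    (hF : ContinuousOn (fun p : ℝ × ℝ => F p.1 p.2) (Icc x₁ x₂ ×ˢ Icc 0 π))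
    (hG : ContinuousOn (fun p : ℝ × ℝ => G p.1 p.2) (Icc x₁ x₂ ×ˢ Icc 0 π)) :
    II x₁ x₂ (fun ξ η => F ξ η - G ξ η) = II x₁ x₂ F - II x₁ x₂ G := by
  have key : ∀ {H : ℝ → ℝ → ℝ},
      ContinuousOn (fun p : ℝ × ℝ => H p.1 p.2) (Icc x₁ x₂ ×ˢ Icc 0 π) →
      (∀ x ∈ Icc x₁ x₂, IntervalIntegrable (H x) volume 0 π) ∧
      IntervalIntegrable (fun x => ∫ y in (0:ℝ)..π, H x y) volume x₁ x₂ := by
    intro H hH
    constructor
    · intro x hx'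
      have h1 : ContinuousOn (fun y => H x y) (Icc 0 π) := by
        refine hH.comp (f := fun y : ℝ => (x, y)) (by fun_prop) ?_
        intro y hy
        exact ⟨hx', hy⟩
      exact h1.intervalIntegrable_of_Icc Real.pi_pos.le
    · have h1 : IntegrableOn (fun p : ℝ × ℝ => H p.1 p.2) (Icc x₁ x₂ ×ˢ Icc 0 π) :=
        hH.integrableOn_compact (isCompact_Icc.prod isCompact_Icc)
      have h2 : IntegrableOn (fun p : ℝ × ℝ => H p.1 p.2) (Ioc x₁ x₂ ×ˢ Ioc 0 π) :=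
        h1.mono_set (prod_mono Ioc_subset_Icc_self Ioc_subset_Icc_self)
      rw [IntegrableOn, Measure.volume_eq_prod, ← Measure.prod_restrict] at h2
      have h3 := h2.integral_prod_left
      rw [intervalIntegrable_iff_integrableOn_Ioc_of_le hx, IntegrableOn]
      simpa only [intervalIntegral.integral_of_le Real.pi_pos.le] using h3
  obtain ⟨hF1, hF2⟩ := key hF
  obtain ⟨hG1, hG2⟩ := key hG
  unfold II
  rw [← intervalIntegral.integral_sub hF2 hG2]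
  refine intervalIntegral.integral_congr ?_
  intro x hx'
  rw [uIcc_of_le hx] at hx'
  exact intervalIntegral.integral_sub (hF1 x hx') (hG1 x hx')

/-- the divergence theorem on the rectangle for a field whose normal component vanishes on the
boundary -/
theorem div_zero {x₁ x₂ : ℝ} (hx : x₁ ≤ x₂) {Rp : Set ℂ}
    (hmem : ∀ p ∈ Ioo x₁ x₂ ×ˢ Ioo 0 π, pt p.1 p.2 ∈ Rp) {F G D : ℝ × ℝ → ℝ}
    (cF : ContinuousOn F (Icc x₁ x₂ ×ˢ Icc 0 π)) (cG : ContinuousOn G (Icc x₁ x₂ ×ˢ Icc 0 π))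
    (cD : ContinuousOn D (Icc x₁ x₂ ×ˢ Icc 0 π)) {F' G' : ℝ × ℝ → ℝ × ℝ →L[ℝ] ℝ}
    (dF : ∀ p : ℝ × ℝ, pt p.1 p.2 ∈ Rp → HasFDerivAt F (F' p) p)
    (dG : ∀ p : ℝ × ℝ, pt p.1 p.2 ∈ Rp → HasFDerivAt G (G' p) p)
    (hD : ∀ p : ℝ × ℝ, F' p (1, 0) + G' p (0, 1) = D p)
    (b1 : ∀ x, G (x, π) = 0) (b2 : ∀ x, G (x, 0) = 0) (b3 : ∀ y, F (x₂, y) = 0)
    (b4 : ∀ y, F (x₁, y) = 0) : ∫ x in x₁..x₂, ∫ y in (0:ℝ)..π, D (x, y) = 0 := by
  have hDf : (fun p => F' p (1, 0) + G' p (0, 1)) = D := funext hD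
  have main := integral2_divergence_prod_of_hasFDerivAt_off_countable F G F' G' x₁ 0 x₂ π ∅
    countable_empty
    (by rw [uIcc_of_le hx, uIcc_of_le Real.pi_pos.le]; exact cF)
    (by rw [uIcc_of_le hx, uIcc_of_le Real.pi_pos.le]; exact cG)
    (by
      intro p hp
      rw [sdiff_empty, min_eq_left hx, max_eq_right hx, min_eq_left Real.pi_pos.le,
        max_eq_right Real.pi_pos.le] at hp
      exact dF p (hmem p hp))
    (by
      intro p hp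
      rw [sdiff_empty, min_eq_left hx, max_eq_right hx, min_eq_left Real.pi_pos.le,
        max_eq_right Real.pi_pos.le] at hp
      exact dG p (hmem p hp))
    (by
      rw [hDf, uIcc_of_le hx, uIcc_of_le Real.pi_pos.le]
      exact cD.integrableOn_compact (isCompact_Icc.prod isCompact_Icc))
  simp only [hD, b1, b2, b3, b4, intervalIntegral.integral_zero] at main
  rw [main]
  ring

theorem nullU {U Ux Uy Lap : ℂ → ℝ} (hU : C2f U Ux Uy Lap) {X : ℂ → ℂ} {x₁ x₂ : ℝ}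
    (hx : x₁ ≤ x₂) (hX : AnalyticOnNhd ℂ X (Rect x₁ x₂))
    {χ χ₁ χ₂ : ℝ → ℝ} (h1 : ∀ ξ, HasDerivAt χ (χ₁ ξ) ξ) (h2 : ∀ ξ, HasDerivAt χ₁ (χ₂ ξ) ξ)
    (h2c : Continuous χ₂) (e1 : χ x₁ = 0) (e2 : χ x₂ = 0) (e3 : χ₁ x₁ = 0) (e4 : χ₁ x₂ = 0)
    {a a₁ a₂ : ℝ → ℝ} (g1 : ∀ η, HasDerivAt a (a₁ η) η) (g2 : ∀ η, HasDerivAt a₁ (a₂ η) η)
    (g2c : Continuous a₂) (f1 : a 0 = 0) (f2 : a π = 0) (f3 : a₁ 0 = 0) (f4 : a₁ π = 0) :
    II x₁ x₂ (fun ξ η => χ ξ * (a η * Lap (X (pt ξ η)) * ‖deriv X (pt ξ η)‖ ^ 2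
      - a₂ η * U (X (pt ξ η)))) =
    II x₁ x₂ (fun ξ η => χ₂ ξ * (a η * U (X (pt ξ η)))) := by
  obtain ⟨hU1, Uxx, Uxy, Uyy, hUx, hUy, hLap⟩ := hU
  -- continuity of all pieces
  have cχ : Continuous χ := continuous_iff_continuousAt.2 fun t => (h1 t).continuousAt
  have cχ₁ : Continuous χ₁ := continuous_iff_continuousAt.2 fun t => (h2 t).continuousAt
  have ca : Continuous a := continuous_iff_continuousAt.2 fun t => (g1 t).continuousAt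
  have ca₁ : Continuous a₁ := continuous_iff_continuousAt.2 fun t => (g2 t).continuousAt
  have hX1 : AnalyticOnNhd ℂ (deriv X) (Rect x₁ x₂) := hX.deriv
  have cX := continuousOn_pt hX.continuousOn
  have cX1 := continuousOn_pt hX1.continuousOn
  have cU : ContinuousOn (fun p : ℝ × ℝ => U (X (pt p.1 p.2))) (Icc x₁ x₂ ×ˢ Icc 0 π) :=
    (C1f.cont hU1).comp_continuousOn cX
  have cUx : ContinuousOn (fun p : ℝ × ℝ => Ux (X (pt p.1 p.2))) (Icc x₁ x₂ ×ˢ Icc 0 π) :=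
    hU1.cx.comp_continuousOn cX
  have cUy : ContinuousOn (fun p : ℝ × ℝ => Uy (X (pt p.1 p.2))) (Icc x₁ x₂ ×ˢ Icc 0 π) :=
    hU1.cy.comp_continuousOn cX
  have cLap : Continuous Lap := by
    have : Lap = fun X => Uxx X + Uyy X := funext hLap
    rw [this]
    exact hUx.cx.add hUy.cy
  have cL : ContinuousOn (fun p : ℝ × ℝ => Lap (X (pt p.1 p.2))) (Icc x₁ x₂ ×ˢ Icc 0 π) :=
    cLap.comp_continuousOn cX
  have cre : ContinuousOn (fun p : ℝ × ℝ => (deriv X (pt p.1 p.2)).re) (Icc x₁ x₂ ×ˢ Icc 0 π) :=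
    Complex.continuous_re.comp_continuousOn cX1
  have cim : ContinuousOn (fun p : ℝ × ℝ => (deriv X (pt p.1 p.2)).im) (Icc x₁ x₂ ×ˢ Icc 0 π) :=
    Complex.continuous_im.comp_continuousOn cX1
  have cA : ContinuousOn (fun p : ℝ × ℝ => χ p.1 * (a p.2 * Lap (X (pt p.1 p.2)) *
      ‖deriv X (pt p.1 p.2)‖ ^ 2 - a₂ p.2 * U (X (pt p.1 p.2)))) (Icc x₁ x₂ ×ˢ Icc 0 π) := by
    have i1 : ContinuousOn (fun p : ℝ × ℝ => χ p.1) (Icc x₁ x₂ ×ˢ Icc 0 π) := by fun_prop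
    have i2 : ContinuousOn (fun p : ℝ × ℝ => a p.2) (Icc x₁ x₂ ×ˢ Icc 0 π) := by fun_prop
    have i3 : ContinuousOn (fun p : ℝ × ℝ => a₂ p.2) (Icc x₁ x₂ ×ˢ Icc 0 π) := by fun_prop
    exact i1.mul (((i2.mul cL).mul (cX1.norm.pow 2)).sub (i3.mul cU))
  have cB : ContinuousOn (fun p : ℝ × ℝ => χ₂ p.1 * (a p.2 * U (X (pt p.1 p.2))))
      (Icc x₁ x₂ ×ˢ Icc 0 π) := by
    have i1 : ContinuousOn (fun p : ℝ × ℝ => χ₂ p.1) (Icc x₁ x₂ ×ˢ Icc 0 π) := by fun_prop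
    have i2 : ContinuousOn (fun p : ℝ × ℝ => a p.2) (Icc x₁ x₂ ×ˢ Icc 0 π) := by fun_prop
    exact i1.mul (i2.mul cU)
  -- the two components of the field
  have hmem : ∀ p ∈ Ioo x₁ x₂ ×ˢ Ioo 0 π, pt p.1 p.2 ∈ Rect x₁ x₂ := by
    rintro ⟨x, y⟩ ⟨hx', hy'⟩
    simp only [Rect, mem_reProdIm, pt]
    constructor
    · simpa using Ioo_subset_Icc_self hx'
    · simpa using Ioo_subset_Icc_self hy'
  have dχ : ∀ p : ℝ × ℝ, HasFDerivAt (fun q : ℝ × ℝ => χ q.1)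
      (χ₁ p.1 • ContinuousLinearMap.fst ℝ ℝ ℝ) p := fun p =>
    (h1 p.1).comp_hasFDerivAt p hasFDerivAt_fst
  have dχ₁ : ∀ p : ℝ × ℝ, HasFDerivAt (fun q : ℝ × ℝ => χ₁ q.1)
      (χ₂ p.1 • ContinuousLinearMap.fst ℝ ℝ ℝ) p := fun p =>
    (h2 p.1).comp_hasFDerivAt p hasFDerivAt_fst
  have da : ∀ p : ℝ × ℝ, HasFDerivAt (fun q : ℝ × ℝ => a q.2)
      (a₁ p.2 • ContinuousLinearMap.snd ℝ ℝ ℝ) p := fun p =>
    (g1 p.2).comp_hasFDerivAt p hasFDerivAt_snd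
  have da₁ : ∀ p : ℝ × ℝ, HasFDerivAt (fun q : ℝ × ℝ => a₁ q.2)
      (a₂ p.2 • ContinuousLinearMap.snd ℝ ℝ ℝ) p := fun p =>
    (g2 p.2).comp_hasFDerivAt p hasFDerivAt_snd
  have dW : ∀ {W Wx Wy : ℂ → ℝ}, C1f W Wx Wy → ∀ p : ℝ × ℝ, pt p.1 p.2 ∈ Rect x₁ x₂ →
      HasFDerivAt (fun q : ℝ × ℝ => W (X (pt q.1 q.2)))
        ((Wx (X (pt p.1 p.2)) • reCLM + Wy (X (pt p.1 p.2)) • imCLM).comp
          (Lc (deriv X (pt p.1 p.2)))) p := by
    intro W Wx Wy hW p hp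
    exact HasFDerivAt.comp (g := W) p (hW.hd _) (hasFDerivAt_X (hX _ hp).differentiableAt)
  have dre : ∀ p : ℝ × ℝ, pt p.1 p.2 ∈ Rect x₁ x₂ →
      HasFDerivAt (fun q : ℝ × ℝ => (deriv X (pt q.1 q.2)).re)
        (reCLM.comp (Lc (deriv (deriv X) (pt p.1 p.2)))) p := fun p hp =>
    reCLM.hasFDerivAt.comp p (hasFDerivAt_X (hX1 _ hp).differentiableAt)
  have dim : ∀ p : ℝ × ℝ, pt p.1 p.2 ∈ Rect x₁ x₂ →
      HasFDerivAt (fun q : ℝ × ℝ => (deriv X (pt q.1 q.2)).im)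
        (imCLM.comp (Lc (deriv (deriv X) (pt p.1 p.2)))) p := fun p hp =>
    imCLM.hasFDerivAt.comp p (hasFDerivAt_X (hX1 _ hp).differentiableAt)
  -- the components and their derivatives
  have dF := fun (p : ℝ × ℝ) (hp : pt p.1 p.2 ∈ Rect x₁ x₂) =>
    (da p).fun_mul (((dχ p).fun_mul (((dW hUx p hp).fun_mul (dre p hp)).fun_add
      ((dW hUy p hp).fun_mul (dim p hp)))).fun_sub ((dχ₁ p).fun_mul (dW hU1 p hp)))
  have dG := fun (p : ℝ × ℝ) (hp : pt p.1 p.2 ∈ Rect x₁ x₂) =>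
    (dχ p).fun_mul (((da p).fun_mul (((dW hUy p hp).fun_mul (dre p hp)).fun_sub
      ((dW hUx p hp).fun_mul (dim p hp)))).fun_sub ((da₁ p).fun_mul (dW hU1 p hp)))
  have cF : ContinuousOn (fun q : ℝ × ℝ => a q.2 * (χ q.1 *
      (Ux (X (pt q.1 q.2)) * (deriv X (pt q.1 q.2)).re +
        Uy (X (pt q.1 q.2)) * (deriv X (pt q.1 q.2)).im) - χ₁ q.1 * U (X (pt q.1 q.2))))
      (Icc x₁ x₂ ×ˢ Icc 0 π) := by
    have i1 : ContinuousOn (fun p : ℝ × ℝ => χ p.1) (Icc x₁ x₂ ×ˢ Icc 0 π) := by fun_prop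
    have i2 : ContinuousOn (fun p : ℝ × ℝ => a p.2) (Icc x₁ x₂ ×ˢ Icc 0 π) := by fun_prop
    have i3 : ContinuousOn (fun p : ℝ × ℝ => χ₁ p.1) (Icc x₁ x₂ ×ˢ Icc 0 π) := by fun_prop
    exact i2.mul ((i1.mul ((cUx.mul cre).add (cUy.mul cim))).sub (i3.mul cU))
  have cG : ContinuousOn (fun q : ℝ × ℝ => χ q.1 * (a q.2 *
      (Uy (X (pt q.1 q.2)) * (deriv X (pt q.1 q.2)).re -
        Ux (X (pt q.1 q.2)) * (deriv X (pt q.1 q.2)).im) - a₁ q.2 * U (X (pt q.1 q.2))))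
      (Icc x₁ x₂ ×ˢ Icc 0 π) := by
    have i1 : ContinuousOn (fun p : ℝ × ℝ => χ p.1) (Icc x₁ x₂ ×ˢ Icc 0 π) := by fun_prop
    have i2 : ContinuousOn (fun p : ℝ × ℝ => a p.2) (Icc x₁ x₂ ×ˢ Icc 0 π) := by fun_prop
    have i3 : ContinuousOn (fun p : ℝ × ℝ => a₁ p.2) (Icc x₁ x₂ ×ˢ Icc 0 π) := by fun_prop
    exact i1.mul ((i2.mul ((cUy.mul cre).sub (cUx.mul cim))).sub (i3.mul cU))
  have cD := cA.fun_sub cB
  have main := div_zero hx (Rp := Rect x₁ x₂) hmem cF cG cD dF dG (by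
    rintro ⟨x, y⟩
    have hn : ‖deriv X (pt x y)‖ ^ 2 = (deriv X (pt x y)).re ^ 2 + (deriv X (pt x y)).im ^ 2 := by
      rw [← normSq_eq_norm_sq, normSq_apply]
      ring
    simp only [_root_.add_apply, _root_.sub_apply,
      _root_.smul_apply, ContinuousLinearMap.comp_apply, Lc_10, Lc_01,
      ContinuousLinearMap.coe_fst', ContinuousLinearMap.coe_snd', smul_eq_mul, reCLM_apply,
      imCLM_apply, mul_re, mul_im, I_re, I_im, hLap, hn]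
    ring)
    (fun x => by simp [f2, f4]) (fun x => by simp [f1, f3]) (fun y => by simp [e2, e4])
    (fun y => by simp [e1, e3])
  have h3 := II_sub hx (F := fun ξ η => χ ξ * (a η * Lap (X (pt ξ η)) *
      ‖deriv X (pt ξ η)‖ ^ 2 - a₂ η * U (X (pt ξ η))))
    (G := fun ξ η => χ₂ ξ * (a η * U (X (pt ξ η)))) cA cB
  rw [II] at h3
  have h4 : II x₁ x₂ (fun ξ η => χ ξ * (a η * Lap (X (pt ξ η)) * ‖deriv X (pt ξ η)‖ ^ 2
      - a₂ η * U (X (pt ξ η)))) - II x₁ x₂ (fun ξ η => χ₂ ξ * (a η * U (X (pt ξ η)))) = 0 := by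
    rw [← h3]
    exact main
  linarith

end Pool.Agent.Helper78.EK
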